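import Pool.Agent.MP_86c931_ag.H56.RowsC

/-! Čech cohomology of the cover by the six charts. -/

namespace Pool.Agent.MP_86c931_ag.H69

open Pool.Agent.MP_86c931_ag.H56

lemma Dh_De (f : F) : Dh (De f) = De f + De (Dh f) := by
  have h : ⁅Dh, De⁆ = De := derF_ext fun ⟨α, k⟩ => by
    change ⁅Dh, De⁆ (zF α k) = De (zF α k)
    rw [Derivation.commutator_apply]
    fin_cases α
    · simp [De_z0, Dh_z0]
    · simp [De_z1, Dh_z1, Dh_z0]
    · simp [De_z2, Dh_z2, Dh_z1]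
  have := DFunLike.congr_fun h f
  rw [Derivation.commutator_apply] at this
  linear_combination this

lemma DhP_He : DhP HeP = HeP := iF_inj (by rw [← Dh_iF]; exact Dh_He)

lemma DhP_Hh : DhP HhP = 0 := iF_inj (by rw [← Dh_iF, map_zero]; exact Dh_Hh)

lemma DeP_He : DeP HeP = 0 := iF_inj (by rw [← De_iF, map_zero]; exact De_He)

lemma DeP_Hh : DeP HhP = -HeP := iF_inj (by rw [← De_iF, map_neg]; exact De_Hh)

lemma DhP_DeP (p : P) : DhP (DeP p) = DeP p + DeP (DhP p) :=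
  iF_inj (by rw [map_add, ← Dh_iF, ← De_iF, ← De_iF, ← Dh_iF, Dh_De])

lemma Dh_pow (k : K6) (m : ℕ) : Dh (zF 0 k ^ m) = (m : ℂ) • zF 0 k ^ m := by
  induction m with
  | zero => simp
  | succ m ih =>
    rw [pow_succ, Derivation.leibniz, ih, Dh_z0]
    simp only [smul_eq_mul, Nat.cast_succ, add_smul, one_smul, mul_smul_comm]
    rw [add_comm, mul_comm (zF 0 k)]

lemma iF_pow (k : K6) (m : ℕ) : iF (zP 0 k ^ m) = zF 0 k ^ m := map_pow _ _ _

lemma DhP_pow (k : K6) (m : ℕ) : DhP (zP 0 k ^ m) = ((m : ℤ) : ℂ) • zP 0 k ^ m :=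
  iF_inj (by rw [← Dh_iF, map_smul, iF_pow, Dh_pow, Int.cast_natCast])

lemma zpow_mem_Pa (k : K6) (m : ℕ) : zF 0 k ^ m ∈ Pa := Pa.pow_mem (zF_mem_PI _ _ _) m

lemma inv_pow_mem (I : Finset K6) {k : K6} (hk : k ∈ I) (m : ℕ) : (zF 0 k ^ m)⁻¹ ∈ PI I := by
  rw [← inv_pow]; exact (PI I).pow_mem (inv_mem_PI hk) m

lemma JF_cancel (k : K6) (m : ℕ) {p : F} (h : zF 0 k ^ m * p ∈ JF) : p ∈ JF := by
  have := JF_mul (inv_pow_mem Finset.univ (Finset.mem_univ k) m) h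
  rwa [← mul_assoc, inv_mul_cancel₀ (pow_ne_zero m (zF_ne_zero 0 k)), one_mul] at this

lemma clear2 {k l : K6} {p : F} (hp : p ∈ PI {k, l}) :
    ∃ m₀ : ℕ, ∀ m, m₀ ≤ m → ∃ n : P, p * (zF 0 k ^ m * zF 0 l ^ m) = iF n := by
  obtain ⟨m₀, n, h⟩ := hp
  refine ⟨m₀, fun m hm => ?_⟩
  obtain ⟨j, rfl⟩ := Nat.exists_eq_add_of_le hm
  by_cases hkl : k = l
  · subst hkl
    rw [xI, Finset.pair_eq_singleton, Finset.prod_singleton] at h
    refine ⟨n * zP 0 k ^ (j + m₀ + j), ?_⟩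
    rw [map_mul, iF_pow, ← h]; ring
  · rw [xI, Finset.prod_pair hkl] at h
    refine ⟨n * (zP 0 k ^ j * zP 0 l ^ j), ?_⟩
    rw [map_mul, map_mul, iF_pow, iF_pow, ← h]; ring

lemma clear1 {k : K6} {p : F} (hp : p ∈ PI {k}) :
    ∃ m₀ : ℕ, ∀ m, m₀ ≤ m → ∃ n : P, p * zF 0 k ^ m = iF n := by
  obtain ⟨m₀, n, h⟩ := hp
  refine ⟨m₀, fun m hm => ?_⟩
  obtain ⟨j, rfl⟩ := Nat.exists_eq_add_of_le hm
  rw [xI, Finset.prod_singleton] at h
  refine ⟨n * zP 0 k ^ j, ?_⟩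
  rw [map_mul, iF_pow, ← h]; ring

lemma mem_JP (hR : RowREG) (p : P) (hp : iF p ∈ JF) : p ∈ JP := by
  obtain ⟨a, ⟨m, n, ha⟩, b, ⟨m', n', hb⟩, h⟩ := hp
  have h1 : ∀ (I : Finset K6) (q : P), (∏ k ∈ I, zP 0 k) * q ∈ JP → q ∈ JP := by
    intro I
    induction I using Finset.induction_on with
    | empty => intro q h; simpa using h
    | insert k I hk ih =>
      intro q h
      rw [Finset.prod_insert hk, mul_assoc] at h
      exact ih q (hR.2.1 k _ h)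
  have h2 : ∀ (j : ℕ) (q : P), (∏ k, zP 0 k) ^ j * q ∈ JP → q ∈ JP := by
    intro j
    induction j with
    | zero => intro q h; simpa using h
    | succ j ih =>
      intro q h
      rw [pow_succ', mul_assoc] at h
      exact ih q (h1 _ _ h)
  refine h2 (m + m') p (Ideal.mem_span_pair.2
    ⟨n * (∏ k, zP 0 k) ^ m', n' * (∏ k, zP 0 k) ^ m, iF_inj ?_⟩)
  simp only [map_add, map_mul, map_pow]
  rw [← xI_eq, ← ha, ← hb, h]
  change _ * He + _ * Hh = _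
  ring

section
variable {pr : ℤ → P →ₗ[ℂ] P}

lemma pr_comb (h3 : ∀ (w w' : ℤ) (u p : P), DhP u = (w' : ℂ) • u → pr (w + w') (u * p) = u * pr w p)
    (w : ℤ) (a b : P) : pr w (a * HeP + b * HhP) = pr (w - 1) a * HeP + pr w b * HhP := by
  have e1 := h3 (w - 1) 1 HeP a (by rw [DhP_He]; simp)
  have e2 := h3 w 0 HhP b (by rw [DhP_Hh]; simp)
  rw [sub_add_cancel] at e1
  rw [add_zero] at e2
  rw [map_add, mul_comm a, mul_comm b, e1, e2]; ring

lemma pr_mem (h3 : ∀ (w w' : ℤ) (u p : P), DhP u = (w' : ℂ) • u → pr (w + w') (u * p) = u * pr w p)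
    (w : ℤ) {p : P} (hp : p ∈ JP) : pr w p ∈ JP := by
  obtain ⟨a, b, rfl⟩ := Ideal.mem_span_pair.1 hp
  exact Ideal.mem_span_pair.2 ⟨_, _, (pr_comb h3 w a b).symm⟩

end

lemma glue0 (hR : RowREG) (hI : RowINV) (w : ℤ) (q : K6 → F) (h1 : ∀ k, q k ∈ PI {k})
    (h2 : ∀ k l, q k - q l ∈ JF) (h3 : ∀ k, Dh (q k) = (w : ℂ) • q k) :
    ∃ r : P, DhP r = (w : ℂ) • r ∧ ∀ k, q k - iF r ∈ JF := by
  obtain ⟨pr, p1, p2, p3⟩ := hI.1
  choose m₀ hm using fun k => clear1 (h1 k)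
  choose n hn using fun k => hm k (Finset.univ.sup m₀) (Finset.le_sup (Finset.mem_univ k))
  generalize Finset.univ.sup m₀ = m at hn
  obtain ⟨r, hr⟩ := hR.2.2.2.1 m n fun k l => mem_JP hR _ (by
    have := JF_mul (zpow_mem_Pa k m) (JF_mul (zpow_mem_Pa l m) (h2 k l))
    convert this using 1
    rw [map_sub, map_mul, map_mul, iF_pow, iF_pow, ← hn, ← hn]; ring)
  refine ⟨pr w r, p1 w r, fun k => JF_cancel k m ?_⟩
  have e1 : DhP (n k) = ((w + m : ℤ) : ℂ) • n k := iF_inj (by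
    rw [← Dh_iF, map_smul, ← hn, Derivation.leibniz, Dh_pow, h3]
    simp only [smul_eq_mul, Int.cast_add, Int.cast_natCast, add_smul, mul_smul_comm]
    rw [add_comm, mul_comm (zF 0 k ^ m)])
  have e2 := iF_mem_JF (pr_mem p3 (w + m) (hr k))
  rw [map_sub (pr _), p2 _ _ e1, p3 w m _ _ (DhP_pow k m), map_sub, map_mul, iF_pow, ← hn] at e2
  convert e2 using 1
  ring

lemma glue1 (hR : RowREG) (hI : RowINV) (p : K6 → K6 → F) (h1 : ∀ k l, p k l ∈ PI {k, l})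
    (h2 : ∀ k l j, p k l - p k j + p l j ∈ JF) (h3 : ∀ k l, Dh (p k l) = 0) :
    ∃ G : K6 → F, (∀ k, G k ∈ PI {k}) ∧ (∀ k, Dh (G k) = 0) ∧
      ∀ k l, p k l - (G k - G l) ∈ JF := by
  obtain ⟨pr, p1, p2, p3⟩ := hI.1
  choose m₀ hm using fun s : K6 × K6 => clear2 (h1 s.1 s.2)
  choose n hn using fun k l => hm (k, l) (Finset.univ.sup m₀) (Finset.le_sup (Finset.mem_univ _))
  generalize Finset.univ.sup m₀ = m at hn
  simp only at hn
  obtain ⟨g, hg⟩ := hR.2.2.2.2 m n fun k l j => mem_JP hR _ (by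
    have := JF_mul (zpow_mem_Pa k m) (JF_mul (zpow_mem_Pa l m)
      (JF_mul (zpow_mem_Pa j m) (h2 k l j)))
    convert this using 1
    rw [map_add, map_sub, map_mul, map_mul, map_mul, iF_pow, iF_pow, iF_pow, ← hn, ← hn, ← hn]
    ring)
  have hz : ∀ k, zF 0 k ^ m ≠ 0 := fun k => pow_ne_zero m (zF_ne_zero 0 k)
  refine ⟨fun k => iF (pr m (g k)) * (zF 0 k ^ m)⁻¹, fun k => (PI {k}).mul_mem (iF_mem_PI _ _)
    (inv_pow_mem _ (Finset.mem_singleton_self k) m), fun k => ?_, fun k l => ?_⟩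
  · have e := congrArg Dh (show iF (pr m (g k)) * (zF 0 k ^ m)⁻¹ * zF 0 k ^ m = iF (pr m (g k)) by
      rw [mul_assoc, inv_mul_cancel₀ (hz k), mul_one])
    rw [Derivation.leibniz, Dh_pow, Dh_iF, p1, map_smul, smul_eq_mul, smul_eq_mul, mul_smul_comm,
      mul_assoc, inv_mul_cancel₀ (hz k), mul_one, Int.cast_natCast, add_eq_left] at e
    exact (mul_eq_zero.1 e).resolve_left (hz k)
  · refine JF_cancel k m (JF_cancel l m ?_)
    have e1 : DhP (n k l) = ((m + m : ℤ) : ℂ) • n k l := iF_inj (by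
      rw [← Dh_iF, map_smul, ← hn, Derivation.leibniz, Derivation.leibniz, Dh_pow, Dh_pow, h3]
      simp only [smul_eq_mul, Int.cast_add, Int.cast_natCast, add_smul, mul_smul_comm, mul_add,
        mul_zero, add_zero]
      rw [mul_comm (zF 0 l ^ m)])
    have e2 := iF_mem_JF (pr_mem p3 (m + m) (hg k l))
    rw [map_sub (pr _), map_sub (pr _), p2 _ _ e1, p3 m m _ _ (DhP_pow k m),
      p3 m m _ _ (DhP_pow l m), map_sub, map_sub, map_mul, map_mul, iF_pow, iF_pow, ← hn] at e2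
    convert e2 using 1
    have := hz k
    have := hz l
    field_simp

theorem rowCECH (hR : RowREG) (hF : RowFIS) (hI : RowINV) (hL : RowLIFT) : RowCECH := by
  refine ⟨fun w hw => ?_, fun f hf => ?_, mem_JP hR⟩
  · choose p hp1 hp2 using fun k l => mem_OI.1 (hw k l)
    obtain ⟨G, G1, G2, G3⟩ := glue1 hR hI (fun k l => (p k l : F)) (fun k l => (hp1 k l).1)
      (fun k l j => by
        have : mkO (p k l - p k j + p l j) = 0 := by
          rw [map_add, map_sub, hp2, hp2, hp2]; ring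
        exact mkO_eq_zero.1 this)
      (fun k l => (hp1 k l).2.2)
    obtain ⟨r, r1, r2⟩ := glue0 hR hI 1 (fun k => De (G k)) (fun k => De_mem_PI (G1 k))
      (fun k l => by
        have := JF.neg_mem (De_mem_JF (G3 k l))
        rwa [map_sub, map_sub, (hp1 k l).2.1, zero_sub, neg_neg] at this)
      (fun k => by rw [Dh_De, G2]; simp)
    obtain ⟨u, u1, u2⟩ := hF.1 r (by simpa using r1)
    choose z z1 z2 using fun k => hL k (G k - iF u) ((PI {k}).sub_mem (G1 k) (iF_mem_PI _ _))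
      (by rw [map_sub, De_iF, u2]; exact r2 k)
      (by rw [map_sub, Dh_iF, u1, G2, map_zero, sub_zero]; exact JF.zero_mem)
    obtain ⟨k₀⟩ : Nonempty K6 := inferInstance
    refine ⟨w k₀ - mkO ⟨z k₀, PIb_le _ (z1 k₀)⟩, fun k =>
      mem_OI.2 ⟨⟨z k, PIb_le _ (z1 k)⟩, z1 k, ?_⟩⟩
    have e : w k - (w k₀ - mkO ⟨z k₀, PIb_le _ (z1 k₀)⟩) =
        mkO (p k k₀ + ⟨z k₀, PIb_le _ (z1 k₀)⟩) := by rw [map_add, hp2]; ring
    rw [e, mkO_eq]
    have := JF.sub_mem (JF.sub_mem (z2 k₀) (z2 k)) (G3 k k₀)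
    convert this using 1
    simp only [Subalgebra.coe_add]
    ring
  · choose p hp1 hp2 using fun k => mem_OI.1 (hf k)
    obtain ⟨r, r1, r2⟩ := glue0 hR hI 0 (fun k => (p k : F)) (fun k => (hp1 k).1)
      (fun k l => mkO_eq.1 (by rw [hp2, hp2])) (fun k => by rw [(hp1 k).2.2]; simp)
    obtain ⟨pr, p1, p2, p3⟩ := hI.1
    obtain ⟨k₀⟩ : Nonempty K6 := inferInstance
    rw [Int.cast_zero, zero_smul] at r1
    have h1 : DeP r ∈ JP := mem_JP hR _ (by
      have := JF.neg_mem (De_mem_JF (r2 k₀))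
      rwa [map_sub, (hp1 k₀).2.1, zero_sub, neg_neg, De_iF] at this)
    obtain ⟨a, b, hab⟩ := Ideal.mem_span_pair.1 h1
    have h2 := pr_comb p3 1 a b
    rw [hab, p2 1 _ (by rw [DhP_DeP, r1]; simp), sub_self] at h2
    obtain ⟨g, g1, g2⟩ := hF.1 (pr 1 b) (by simpa using p1 1 b)
    obtain ⟨i, u, i1, u1, hiu⟩ := hF.2.1 (pr 0 a + g) (by rw [map_add, p1, g1]; simp)
    have h3 : r - ((i - g) * -HhP + u * HeP) ∈ Pb := by
      have i2 : DeP i = 0 := i1.1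
      have i3 : DhP i = 0 := i1.2
      constructor
      · simp only [map_sub, map_add, map_neg, Derivation.leibniz, smul_eq_mul, DeP_He, DeP_Hh, i2,
          g2, h2]
        linear_combination HeP * hiu
      · simp only [map_sub, map_add, map_neg, Derivation.leibniz, smul_eq_mul, DhP_He, DhP_Hh, i3,
          g1, r1, u1]
        ring
    have h4 : iF (r - ((i - g) * -HhP + u * HeP)) ∈ PIb ∅ := ⟨iF_mem_PI _ _, iF_mem_Inv.2 h3⟩
    refine mem_OI.2 ⟨⟨_, PIb_le _ h4⟩, h4, ?_⟩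
    rw [← hp2 k₀, eq_comm, mkO_eq]
    have h5 : (i - g) * -HhP + u * HeP ∈ JP := Ideal.mem_span_pair.2 ⟨u, g - i, by ring⟩
    have := JF.add_mem (r2 k₀) (iF_mem_JF h5)
    convert this using 1
    simp only [map_sub]
    ring

end Pool.Agent.MP_86c931_ag.H69
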